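import Pool.Graph.R_pool_sql_team_seeded_63374d34.N411.CV.Cover
import Pool.Graph.R_pool_sql_team_seeded_620a6dc7.Helper88_CC7.Fin7

set_option autoImplicit false
set_option linter.unusedSectionVars false

/-!
Circuit covers of weightings whose values differ by a factor of at most about `4 / 3`, and of even
weightings whose values differ by a factor of at most `7 / 6`.
-/

namespace Pool.Agent.H12.FT

open Finset
open Pool.Agent.Helper879.ECD (cn)
open Pool.Agent.H126R2.CDC (MGraph)
open Pool.Agent.H126R2.NC (TC InCone InLat InIntCone cone_lat_of_intCone cover_minus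
  bridgeless_of_cone const_of_tc)
open Pool.Agent.TH399.CC (intCone_add intCone_sum odd_part block)
open Pool.Agent.N411.CV (HasCol colouring_bridgeless)
open Pool.Agent.N411.EC (TEC Col Cr)

/-- every 3-edge-connected graph has seven classes of edges with 2-edge-connected complements -/
theorem hasCol_seven : HasCol (Fin 7) := by
  intro W E _ _ _ _ a b h
  classical
  by_cases hW : 2 ≤ Fintype.card W
  · obtain ⟨c, hc⟩ := Pool.Agent.Helper88.CC.cuts_cov7 (s := a) (t := b) hW (fun X h1 h2 => by
      have h3 := h X.toFinset (by simpa using h1) (by simpa using h2)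
      unfold cn at h3
      rw [Set.ncard_eq_toFinset_card']
      refine le_trans h3 (le_of_eq ?_)
      congr 1
      ext e
      simp)
    refine ⟨c, fun γ B hB hB' => ?_⟩
    have h3 := hc γ (B : Set W) (by simpa using hB) (by simpa using hB')
    obtain ⟨e, he, f, hf, hef⟩ := (Set.one_lt_ncard (Set.toFinite _)).1 h3
    refine ⟨e, f, hef, he.1, hf.1, ?_, ?_⟩
    · simpa [Cr] using he.2
    · simpa [Cr] using hf.2
  · refine ⟨fun _ => 0, fun γ B hB hB' => ?_⟩
    exfalso
    obtain ⟨x, hx⟩ := hB
    have : Subsingleton W := Fintype.card_le_one_iff_subsingleton.1 (by omega)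
    apply hB'
    ext y
    simp [Subsingleton.elim y x, hx]

/-- a sum of truncated differences -/
lemma sum_trunc (a : ℕ) : ∀ r : ℕ, ∑ t ∈ Finset.range r, min (a - 2 * t) 2 = min a (2 * r) := by
  intro r
  induction r with
  | zero => simp
  | succ r ih =>
    rw [Finset.sum_range_succ, ih]
    omega

lemma sum_trunc1 (a : ℕ) : ∀ r : ℕ, ∑ t ∈ Finset.range r, (if t < a then 1 else 0) = min a r := by
  intro r
  induction r with
  | zero => simp
  | succ r ih =>
    rw [Finset.sum_range_succ, ih]
    split_ifs <;> omega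

variable {V E : Type} [Fintype V] [DecidableEq V] [Fintype E] [DecidableEq E]

/-- the main construction, for even weights `2 q` -/
theorem cover_even (G : MGraph V E) (hbr : G.Bridgeless) (v : E × Bool → V)
    (hv : ∀ e, G.ends e = s(v (e, false), v (e, true))) (q : E → ℕ)
    (htc : ∀ e f, TC (fun e => v (e, false)) (fun e => v (e, true)) e f → q e = q f)
    (μ r s : ℕ) (hs : 1 ≤ s) (h1 : ∀ e, μ ≤ q e) (h2 : ∀ e, q e ≤ μ + 4 * r + s)
    (h3 : 12 * r + 6 * s ≤ μ) : InIntCone G (fun e => 2 * q e) := by
  classical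
  obtain ⟨col, hcol1, hcol2⟩ := colouring_bridgeless hasCol_seven (fun e => v (e, false))
    (fun e => v (e, true)) (G.no_one_cut hbr v hv)
  let u : E → ℕ := fun e => min ((q e - μ) / 2) (2 * r)
  let w : E → ℕ := fun e => (q e - μ) - 2 * u e
  have hu : ∀ e, u e ≤ 2 * r := fun e => by
    show min ((q e - μ) / 2) (2 * r) ≤ 2 * r
    omega
  have hw : ∀ e, w e ≤ s := fun e => by
    have := h2 e
    show (q e - μ) - 2 * min ((q e - μ) / 2) (2 * r) ≤ s
    omega
  have hq : ∀ e, q e = μ + 2 * u e + w e := by
    intro e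
    have := h1 e
    show q e = μ + 2 * min ((q e - μ) / 2) (2 * r) +
      ((q e - μ) - 2 * min ((q e - μ) / 2) (2 * r))
    omega
  have hutc : ∀ e f, TC (fun e => v (e, false)) (fun e => v (e, true)) e f → u e = u f := by
    intro e f h
    show min ((q e - μ) / 2) (2 * r) = min ((q f - μ) / 2) (2 * r)
    rw [htc e f h]
  have hwtc : ∀ e f, TC (fun e => v (e, false)) (fun e => v (e, true)) e f → w e = w f := by
    intro e f h
    show (q e - μ) - 2 * u e = (q f - μ) - 2 * u f
    rw [htc e f h, hutc e f h]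
  -- the rounds with eight shifted even sets
  have hA : ∀ (t : ℕ) (γ : Fin 7), InIntCone G (fun e =>
      if col e = γ then 4 * min (u e - 2 * t) 2 else 4) := by
    intro t γ
    obtain ⟨S, hS1, hS2⟩ := block G v hv
      (univ.filter (fun e => col e = γ ∧ min (u e - 2 * t) 2 ≠ 1))
      (univ.filter (fun e => min (u e - 2 * t) 2 = 2)) (by
        intro e he f hef
        rw [Finset.mem_filter] at he ⊢
        exact ⟨Finset.mem_univ _, by rw [← hcol1 e f hef]; exact he.2.1, by
          rw [← hutc e f hef]; exact he.2.2⟩) (by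
        intro e he f hef
        rw [Finset.mem_filter] at he ⊢
        exact ⟨Finset.mem_univ _, by rw [← hutc e f hef]; exact he.2⟩) (by
        intro X' hX' hcl B
        refine hcol2 X' γ ?_ hcl B
        intro e he
        exact (Finset.mem_filter.1 (hX' he)).2.1)
    refine ⟨S, hS1, fun e => ?_⟩
    rw [hS2 e]
    simp only [Finset.mem_filter, Finset.mem_univ, true_and]
    by_cases hc : col e = γ
    · by_cases h4 : min (u e - 2 * t) 2 = 1
      · simp [hc, h4]
      · by_cases h5 : min (u e - 2 * t) 2 = 2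
        · simp [hc, h5]
        · have h6 : min (u e - 2 * t) 2 = 0 := by omega
          simp [hc, h6]
    · simp [hc]
  -- the rounds with double covers
  have hB : ∀ (t : ℕ) (γ : Fin 7), InIntCone G (fun e =>
      if col e = γ then 2 * (if t < w e then 1 else 0) else 2) := by
    intro t γ
    obtain ⟨S, hS1, hS2⟩ := cover_minus G v hv
      (univ.filter (fun e => col e = γ ∧ ¬ t < w e)) (by
        apply hcol2 _ γ
        · intro e he
          exact (Finset.mem_filter.1 he).2.1
        · intro e he f hef
          rw [Finset.mem_filter] at he ⊢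
          refine ⟨Finset.mem_univ _, ?_, ?_⟩
          · rw [← hcol1 e f hef]; exact he.2.1
          · rw [← hwtc e f hef]; exact he.2.2)
    refine ⟨S, hS1, fun e => ?_⟩
    rw [hS2 e]
    simp only [Finset.mem_filter, Finset.mem_univ, true_and]
    by_cases h1 : col e = γ
    · by_cases h2 : t < w e <;> simp [h1, h2]
    · simp [h1]
  have hC : InIntCone G (fun _ => 2 * (μ - 12 * r - 6 * s)) := by
    obtain ⟨S, hS1, hS2⟩ := G.exists_cdc hbr
    refine ⟨(μ - 12 * r - 6 * s) • S,
      fun C hC => hS1 C (Multiset.mem_of_mem_nsmul hC), fun e => ?_⟩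
    rw [Multiset.countP_nsmul, hS2 e]
    ring
  have hsum : ∀ (m x : ℕ) (e : E), ∑ γ : Fin 7, (if col e = γ then x else m) = 6 * m + x := by
    intro m x e
    have h1 : ∀ γ ∈ (univ : Finset (Fin 7)),
        (if col e = γ then x else m) + (if col e = γ then m else 0) =
        m + (if col e = γ then x else 0) := by
      intro γ _
      by_cases h : col e = γ <;> simp [h, add_comm]
    have h2 := Finset.sum_congr rfl h1
    rw [Finset.sum_add_distrib, Finset.sum_add_distrib, Finset.sum_ite_eq, Finset.sum_ite_eq] at h2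
    simp only [Finset.mem_univ, if_true, Finset.sum_const, Finset.card_univ,
      Fintype.card_fin, smul_eq_mul] at h2
    omega
  have hA' := intCone_sum G (Finset.range r) _ (fun t _ =>
    intCone_sum G (univ : Finset (Fin 7)) _ (fun γ _ => hA t γ))
  have hB' := intCone_sum G (Finset.range s) _ (fun t _ =>
    intCone_sum G (univ : Finset (Fin 7)) _ (fun γ _ => hB t γ))
  refine intCone_add G (intCone_add G hA' hB' (fun e => rfl)) hC ?_
  intro e
  show 2 * q e = ∑ t ∈ Finset.range r, ∑ γ : Fin 7,
      (if col e = γ then 4 * min (u e - 2 * t) 2 else 4) +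
    ∑ t ∈ Finset.range s, ∑ γ : Fin 7,
      (if col e = γ then 2 * (if t < w e then 1 else 0) else 2) + 2 * (μ - 12 * r - 6 * s)
  have h4 := hq e
  have h5 := hu e
  have h6 := hw e
  have h7 : ∑ t ∈ Finset.range r, ∑ γ : Fin 7,
      (if col e = γ then 4 * min (u e - 2 * t) 2 else 4) = 24 * r + 4 * u e := by
    rw [Finset.sum_congr rfl (fun t _ => hsum 4 (4 * min (u e - 2 * t) 2) e),
      Finset.sum_add_distrib, ← Finset.mul_sum (Finset.range r) (fun t => min (u e - 2 * t) 2) 4,
      sum_trunc, Finset.sum_const, Finset.card_range, smul_eq_mul, min_eq_left h5]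
    omega
  have h8 : ∑ t ∈ Finset.range s, ∑ γ : Fin 7,
      (if col e = γ then 2 * (if t < w e then 1 else 0) else 2) = 12 * s + 2 * w e := by
    rw [Finset.sum_congr rfl (fun t _ => hsum 2 (2 * (if t < w e then 1 else 0)) e),
      Finset.sum_add_distrib, ← Finset.mul_sum (Finset.range s) (fun t => if t < w e then 1 else 0) 2,
      sum_trunc1, Finset.sum_const, Finset.card_range, smul_eq_mul, min_eq_left h6]
    omega
  rw [h7, h8]
  omega

/-- circuit covers for weights within a factor of about `4 / 3` and, for small differences, of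
`7 / 6` -/
theorem seven (G : MGraph V E) (p : E → ℕ) (hpos : ∀ e, 2 ≤ p e)
    (hr : ∀ e f, 3 * (p e / 2) + 9 ≤ 4 * (p f / 2) ∨ 6 * (p e / 2) ≤ 7 * (p f / 2)) :
    InIntCone G p ↔ InCone G p ∧ InLat G p := by
  classical
  refine ⟨cone_lat_of_intCone G p, ?_⟩
  rintro ⟨h1, h2⟩
  by_cases hE : IsEmpty E
  · exact ⟨0, by simp, fun e => (hE.false e).elim⟩
  rw [not_isEmpty_iff] at hE
  obtain ⟨v, hv⟩ := G.exists_halves
  have hbr := bridgeless_of_cone G p h1 (fun e => by have := hpos e; omega)
  refine intCone_add G (p := fun e => 2 * (p e / 2)) ?_ (odd_part G p h2)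
    (fun e => (Nat.div_add_mod (p e) 2).symm)
  obtain ⟨e0, -, he0⟩ := Finset.exists_max_image (univ : Finset E) (fun e => p e / 2)
    (Finset.univ_nonempty)
  obtain ⟨e1, -, he1⟩ := Finset.exists_min_image (univ : Finset E) (fun e => p e / 2)
    (Finset.univ_nonempty)
  have hle0 : ∀ e, p e / 2 ≤ p e0 / 2 := fun e => he0 e (Finset.mem_univ _)
  have hle1 : ∀ e, p e1 / 2 ≤ p e / 2 := fun e => he1 e (Finset.mem_univ _)
  have hq1 : 1 ≤ p e1 / 2 := by have := hpos e1; omega
  have htc : ∀ e f, TC (fun e => v (e, false)) (fun e => v (e, true)) e f → p e / 2 = p f / 2 :=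
    fun e f hef => by rw [const_of_tc G v hv p h1 hef]
  set M := p e0 / 2 with hM
  set μ := p e1 / 2 with hμ
  have hr0 : 3 * M + 9 ≤ 4 * μ ∨ 6 * M ≤ 7 * μ := hr e0 e1
  have hμM : μ ≤ M := hle0 e1
  by_cases hD : M = μ
  · -- constant weights
    obtain ⟨S, hS1, hS2⟩ := G.exists_cdc hbr
    refine ⟨μ • S, fun C hC => hS1 C (Multiset.mem_of_mem_nsmul hC), fun e => ?_⟩
    rw [Multiset.countP_nsmul, hS2 e]
    have h3 := hle0 e
    have h4 := hle1 e
    show μ * 2 = 2 * (p e / 2)
    omega
  · have hlt : μ < M := by omega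
    by_cases h6 : 6 * M ≤ 7 * μ
    · exact cover_even G hbr v hv (fun e => p e / 2) htc μ 0 (M - μ) (by omega) hle1
        (fun e => by have := hle0 e; omega) (by omega)
    · have h9 : 3 * M + 9 ≤ 4 * μ := hr0.resolve_right h6
      by_cases h4 : (M - μ) % 4 = 0
      · exact cover_even G hbr v hv (fun e => p e / 2) htc μ ((M - μ) / 4) 1 le_rfl hle1
          (fun e => by have := hle0 e; omega) (by omega)
      · exact cover_even G hbr v hv (fun e => p e / 2) htc μ ((M - μ) / 4) ((M - μ) % 4)
          (by omega) hle1 (fun e => by have := hle0 e; omega) (by omega)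

end Pool.Agent.H12.FT
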